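import Mathlib

/-!
The approximate parallelogram law for the naive height on an elliptic curve over a number field, and
the descent theorem of Mordell and Weil: the group of points is finitely generated if its quotient
by the doubles is finite.
-/

namespace Pool.Agent.Lib.MP_695920_nt.Extra

open WeierstrassCurve WeierstrassCurve.Affine MvPolynomial Height

section field

variable {F : Type*} [Field F]

private theorem ht_eval0 (W : WeierstrassCurve F) (s t u : F) :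
    (addSubMap W 0).eval ![s, t, u] = s ^ 2 - W.b₄ * s * u - W.b₆ * t * u - W.b₈ * u ^ 2 := by
  simp [addSubMap]

private theorem ht_eval1 (W : WeierstrassCurve F) (s t u : F) :
    (addSubMap W 1).eval ![s, t, u] = 2 * t * s + W.b₂ * s * u + W.b₄ * t * u + W.b₆ * u ^ 2 := by
  simp [addSubMap]

private theorem ht_eval2 (W : WeierstrassCurve F) (s t u : F) :
    (addSubMap W 2).eval ![s, t, u] = t ^ 2 - 4 * s * u := by
  simp [addSubMap]

private theorem ht_eval (W : WeierstrassCurve F) (s t u : F) :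
    (fun i => (addSubMap W i).eval ![s, t, u]) =
      ![s ^ 2 - W.b₄ * s * u - W.b₆ * t * u - W.b₈ * u ^ 2,
        2 * t * s + W.b₂ * s * u + W.b₄ * t * u + W.b₆ * u ^ 2, t ^ 2 - 4 * s * u] := by
  funext i
  fin_cases i
  · exact ht_eval0 W s t u
  · exact ht_eval1 W s t u
  · exact ht_eval2 W s t u

/-- the two sums for points with different first coordinates -/
private theorem ht_chord (W : WeierstrassCurve F) (h2 : (2 : F) ≠ 0) {x₁ y₁ x₂ y₂ : F}
    (e₁ : y₁ ^ 2 + W.a₁ * x₁ * y₁ + W.a₃ * y₁ = x₁ ^ 3 + W.a₂ * x₁ ^ 2 + W.a₄ * x₁ + W.a₆)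
    (e₂ : y₂ ^ 2 + W.a₁ * x₂ * y₂ + W.a₃ * y₂ = x₂ ^ 3 + W.a₂ * x₂ ^ 2 + W.a₄ * x₂ + W.a₆)
    (hx : x₁ - x₂ ≠ 0) {u v : F} (hu : u * (x₁ - x₂) = y₁ - y₂)
    (hv : v * (x₁ - x₂) = y₁ + y₂ + W.a₁ * x₂ + W.a₃) :
    2 * (x₁ + x₂) * (x₁ * x₂) + W.b₂ * (x₁ * x₂) + W.b₄ * (x₁ + x₂) + W.b₆ =
        (x₁ - x₂) ^ 2 * ((u ^ 2 + W.a₁ * u - W.a₂ - x₁ - x₂) +
          (v ^ 2 + W.a₁ * v - W.a₂ - x₁ - x₂)) ∧
      (x₁ * x₂) ^ 2 - W.b₄ * (x₁ * x₂) - W.b₆ * (x₁ + x₂) - W.b₈ =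
        (x₁ - x₂) ^ 2 * ((u ^ 2 + W.a₁ * u - W.a₂ - x₁ - x₂) *
          (v ^ 2 + W.a₁ * v - W.a₂ - x₁ - x₂)) := by
  have h4 : (4 : F) ≠ 0 := by
    have : (4 : F) = 2 * 2 := by norm_num
    rw [this]
    exact mul_ne_zero h2 h2
  have h16 : (16 : F) ≠ 0 := by
    have : (16 : F) = 4 * 4 := by norm_num
    rw [this]
    exact mul_ne_zero h4 h4
  obtain ⟨m, hm⟩ : ∃ m, m = 2 * y₁ + W.a₁ * x₁ + W.a₃ := ⟨_, rfl⟩
  obtain ⟨n, hn⟩ : ∃ n, n = 2 * y₂ + W.a₁ * x₂ + W.a₃ := ⟨_, rfl⟩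
  have hm2 : m ^ 2 = 4 * x₁ ^ 3 + W.b₂ * x₁ ^ 2 + 2 * W.b₄ * x₁ + W.b₆ := by
    rw [hm]
    simp only [b₂, b₄, b₆]
    linear_combination 4 * e₁
  have hn2 : n ^ 2 = 4 * x₂ ^ 3 + W.b₂ * x₂ ^ 2 + 2 * W.b₄ * x₂ + W.b₆ := by
    rw [hn]
    simp only [b₂, b₄, b₆]
    linear_combination 4 * e₂
  obtain ⟨A, hA⟩ : ∃ A, A = u ^ 2 + W.a₁ * u - W.a₂ - x₁ - x₂ := ⟨_, rfl⟩
  obtain ⟨B, hB⟩ : ∃ B, B = v ^ 2 + W.a₁ * v - W.a₂ - x₁ - x₂ := ⟨_, rfl⟩
  have hmn : (2 * u + W.a₁) * (x₁ - x₂) = m - n := by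
    rw [hm, hn]
    linear_combination 2 * hu
  have hpn : (2 * v + W.a₁) * (x₁ - x₂) = m + n := by
    rw [hm, hn]
    linear_combination 2 * hv
  have hA2 : 4 * ((x₁ - x₂) ^ 2 * A) = (m - n) ^ 2 - (W.b₂ + 4 * x₁ + 4 * x₂) * (x₁ - x₂) ^ 2 := by
    rw [← hmn, hA]
    simp only [b₂]
    ring
  have hB2 : 4 * ((x₁ - x₂) ^ 2 * B) = (m + n) ^ 2 - (W.b₂ + 4 * x₁ + 4 * x₂) * (x₁ - x₂) ^ 2 := by
    rw [← hpn, hB]
    simp only [b₂]
    ring
  have hb := W.b_relation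
  rw [← hA, ← hB]
  constructor
  · apply mul_left_cancel₀ h4
    have : 4 * ((x₁ - x₂) ^ 2 * (A + B)) = 4 * ((x₁ - x₂) ^ 2 * A) + 4 * ((x₁ - x₂) ^ 2 * B) := by
      ring
    rw [this, hA2, hB2]
    linear_combination -2 * hm2 - 2 * hn2
  · apply mul_left_cancel₀ h16
    apply mul_left_cancel₀ (pow_ne_zero 2 hx)
    have : (x₁ - x₂) ^ 2 * (16 * ((x₁ - x₂) ^ 2 * (A * B))) =
        (4 * ((x₁ - x₂) ^ 2 * A)) * (4 * ((x₁ - x₂) ^ 2 * B)) := by
      ring
    rw [this, hA2, hB2]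
    have e3 : (m - n) ^ 2 * (m + n) ^ 2 = (m ^ 2 - n ^ 2) ^ 2 := by ring
    have e4 : (m - n) ^ 2 + (m + n) ^ 2 = 2 * m ^ 2 + 2 * n ^ 2 := by ring
    have e5 : ((m - n) ^ 2 - (W.b₂ + 4 * x₁ + 4 * x₂) * (x₁ - x₂) ^ 2) *
        ((m + n) ^ 2 - (W.b₂ + 4 * x₁ + 4 * x₂) * (x₁ - x₂) ^ 2) =
        (m ^ 2 - n ^ 2) ^ 2 - (W.b₂ + 4 * x₁ + 4 * x₂) * (x₁ - x₂) ^ 2 *
          (2 * m ^ 2 + 2 * n ^ 2) + ((W.b₂ + 4 * x₁ + 4 * x₂) * (x₁ - x₂) ^ 2) ^ 2 := by
      ring
    rw [e5, hm2, hn2]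
    linear_combination (-4 * (x₁ - x₂) ^ 2) * hb

/-- doubling -/
private theorem ht_tangent (W : WeierstrassCurve F) (h2 : (2 : F) ≠ 0) {x y : F}
    (e : y ^ 2 + W.a₁ * x * y + W.a₃ * y = x ^ 3 + W.a₂ * x ^ 2 + W.a₄ * x + W.a₆)
    {u m : F} (hm : m = 2 * y + W.a₁ * x + W.a₃)
    (hu : u * m = 3 * x ^ 2 + 2 * W.a₂ * x + W.a₄ - W.a₁ * y) :
    m ^ 2 = 2 * (x + x) * (x * x) + W.b₂ * (x * x) + W.b₄ * (x + x) + W.b₆ ∧
      (x * x) ^ 2 - W.b₄ * (x * x) - W.b₆ * (x + x) - W.b₈ =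
        m ^ 2 * (u ^ 2 + W.a₁ * u - W.a₂ - x - x) := by
  have hm2 : m ^ 2 = 2 * (x + x) * (x * x) + W.b₂ * (x * x) + W.b₄ * (x + x) + W.b₆ := by
    rw [hm]
    simp only [b₂, b₄, b₆]
    linear_combination 4 * e
  refine ⟨hm2, ?_⟩
  have h4 : (4 : F) ≠ 0 := by
    have : (4 : F) = 2 * 2 := by norm_num
    rw [this]
    exact mul_ne_zero h2 h2
  apply mul_left_cancel₀ h4
  have h5 : (2 * u + W.a₁) * m = 6 * x ^ 2 + W.b₂ * x + W.b₄ := by
    have : (2 * u + W.a₁) * m = 2 * (u * m) + W.a₁ * m := by ring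
    rw [this, hu, hm]
    simp only [b₂, b₄]
    ring
  have h6 : 4 * (m ^ 2 * (u ^ 2 + W.a₁ * u - W.a₂ - x - x)) =
      ((2 * u + W.a₁) * m) ^ 2 - (W.b₂ + 8 * x) * m ^ 2 := by
    simp only [b₂]
    ring
  rw [h6, h5, hm2]
  linear_combination -W.b_relation

variable [DecidableEq F]

private theorem ht_smul3 (c a b d : F) : c • ![a, b, d] = ![c * a, c * b, c * d] := by
  simp

private theorem ht_two (W : WeierstrassCurve F) [W.IsElliptic] (h2 : (2 : F) ≠ 0)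
    (P : W.toAffine.Point) : ∃ c : F, c ≠ 0 ∧
      (fun i => (addSubMap W i).eval (P.sym2x P)) = c • (P + P).sym2x 0 := by
  rcases P with _ | ⟨x, y, h⟩
  · refine ⟨1, one_ne_zero, ?_⟩
    show (fun i => (addSubMap W i).eval ((0 : W.toAffine.Point).sym2x 0)) =
      (1 : F) • ((0 : W.toAffine.Point) + 0).sym2x 0
    rw [add_zero, Point.sym2x_zero_zero, ht_eval]
    simp
  · have e := (equation_iff ..).mp h.1
    rw [Point.sym2x_some_some, ht_eval]
    by_cases hy : y = W.toAffine.negY x y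
    · rw [Point.add_self_of_Y_eq hy, Point.sym2x_zero_zero]
      have hm : (0 : F) = 2 * y + W.a₁ * x + W.a₃ := by
        rw [negY] at hy
        linear_combination -hy
      have h3 : (0 : F) ^ 2 = 2 * (x + x) * (x * x) + W.b₂ * (x * x) + W.b₄ * (x + x) + W.b₆ := by
        rw [hm]
        simp only [b₂, b₄, b₆]
        linear_combination 4 * e
      have h4 : 2 * (x + x) * (x * x) + W.b₂ * (x * x) * 1 + W.b₄ * (x + x) * 1 + W.b₆ * 1 ^ 2 =
          0 := by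
        linear_combination -h3
      have h5 : (x + x) ^ 2 - 4 * (x * x) * 1 = 0 := by ring
      refine ⟨(x * x) ^ 2 - W.b₄ * (x * x) * 1 - W.b₆ * (x + x) * 1 - W.b₈ * 1 ^ 2, ?_, ?_⟩
      · intro h0
        have h6 := addSubMap_ne_zero W (x := ![x * x, x + x, 1]) (by
          intro h7
          have h8 := congrFun h7 2
          simp at h8)
        apply h6
        rw [ht_eval, h0, h4, h5]
        funext i
        fin_cases i <;> rfl
      · rw [ht_smul3, h4, h5]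
        simp
    · rw [Point.add_self_of_Y_ne hy, Point.sym2x_some_zero]
      have hm0 : y - W.toAffine.negY x y ≠ 0 := sub_ne_zero.2 hy
      have hm : y - W.toAffine.negY x y = 2 * y + W.a₁ * x + W.a₃ := by
        rw [negY]
        ring
      have hu : W.toAffine.slope x x y y * (y - W.toAffine.negY x y) =
          3 * x ^ 2 + 2 * W.a₂ * x + W.a₄ - W.a₁ * y := by
        rw [slope_of_Y_ne rfl hy, div_mul_cancel₀ _ hm0]
      obtain ⟨h3, h4⟩ := ht_tangent W h2 e hm hu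
      refine ⟨(y - W.toAffine.negY x y) ^ 2, pow_ne_zero 2 hm0, ?_⟩
      rw [ht_smul3]
      have e0 : (x * x) ^ 2 - W.b₄ * (x * x) * 1 - W.b₆ * (x + x) * 1 - W.b₈ * 1 ^ 2 =
          (y - W.toAffine.negY x y) ^ 2 *
            W.toAffine.addX x x (W.toAffine.slope x x y y) := by
        rw [addX, ← h4]
        ring
      have e1 : 2 * (x + x) * (x * x) + W.b₂ * (x * x) * 1 + W.b₄ * (x + x) * 1 + W.b₆ * 1 ^ 2 =
          (y - W.toAffine.negY x y) ^ 2 * 1 := by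
        rw [h3]
        ring
      have e2 : (x + x) ^ 2 - 4 * (x * x) * 1 = (y - W.toAffine.negY x y) ^ 2 * 0 := by ring
      rw [e0, e1, e2]

/-- the map `addSubMap` does what it is made for -/
theorem addSub_eval (W : WeierstrassCurve F) [W.IsElliptic] (h2 : (2 : F) ≠ 0)
    (P Q : W.toAffine.Point) : ∃ c : F, c ≠ 0 ∧
      (fun i => (addSubMap W i).eval (P.sym2x Q)) = c • (P + Q).sym2x (P - Q) := by
  rcases P with _ | ⟨x₁, y₁, h₁⟩
  · refine ⟨1, one_ne_zero, ?_⟩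
    show (fun i => (addSubMap W i).eval ((0 : W.toAffine.Point).sym2x Q)) =
      (1 : F) • ((0 : W.toAffine.Point) + Q).sym2x (0 - Q)
    rw [zero_add, zero_sub, Point.sym2x_neg_right]
    rcases Q with _ | ⟨x₂, y₂, h₂⟩
    · show (fun i => (addSubMap W i).eval ((0 : W.toAffine.Point).sym2x 0)) =
        (1 : F) • (0 : W.toAffine.Point).sym2x 0
      rw [Point.sym2x_zero_zero, ht_eval]
      simp
    · rw [Point.sym2x_zero_some, Point.sym2x_some_some, ht_eval]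
      funext i
      fin_cases i <;> simp <;> ring
  rcases Q with _ | ⟨x₂, y₂, h₂⟩
  · refine ⟨1, one_ne_zero, ?_⟩
    show (fun i => (addSubMap W i).eval ((Point.some x₁ y₁ h₁).sym2x 0)) =
      (1 : F) • (Point.some x₁ y₁ h₁ + 0).sym2x (Point.some x₁ y₁ h₁ - 0)
    rw [add_zero, sub_zero, Point.sym2x_some_zero, Point.sym2x_some_some, ht_eval]
    funext i
    fin_cases i <;> simp <;> ring
  by_cases hx : x₁ = x₂
  · rcases Point.X_eq_iff.1 hx with hPQ | hPQ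
    · rw [hPQ, sub_self]
      exact ht_two W h2 _
    · rw [hPQ, neg_add_cancel, Point.sym2x_neg_left, Point.sym2x_comm 0, ← neg_add',
        Point.sym2x_neg_left]
      exact ht_two W h2 _
  · have e₁ := (equation_iff ..).mp h₁.1
    have e₂ := (equation_iff ..).mp h₂.1
    have hx' : x₁ - x₂ ≠ 0 := sub_ne_zero.2 hx
    rw [sub_eq_add_neg, Point.neg_some, Point.add_of_X_ne hx, Point.add_of_X_ne hx,
      Point.sym2x_some_some, Point.sym2x_some_some, ht_eval]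
    have hu : W.toAffine.slope x₁ x₂ y₁ y₂ * (x₁ - x₂) = y₁ - y₂ := by
      rw [slope_of_X_ne hx, div_mul_cancel₀ _ hx']
    have hv : W.toAffine.slope x₁ x₂ y₁ (W.toAffine.negY x₂ y₂) * (x₁ - x₂) =
        y₁ + y₂ + W.a₁ * x₂ + W.a₃ := by
      rw [slope_of_X_ne hx, div_mul_cancel₀ _ hx', negY]
      ring
    obtain ⟨h3, h4⟩ := ht_chord W h2 e₁ e₂ hx' hu hv
    refine ⟨(x₁ - x₂) ^ 2, pow_ne_zero 2 hx', ?_⟩
    rw [ht_smul3]
    simp only [addX]
    congr 1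
    · linear_combination h4
    · congr 1
      · linear_combination h3
      · congr 1
        ring

end field

section heights

variable {K : Type*} [Field K] [NumberField K]

/-- the naive height of a point -/
noncomputable def nht {W : WeierstrassCurve K} (P : W.toAffine.Point) : ℝ := logHeight P.xRep

theorem nht_nonneg {W : WeierstrassCurve K} (P : W.toAffine.Point) : 0 ≤ nht P :=
  logHeight_nonneg _

private theorem ht_eta (v : Fin 2 → K) : ![v 0, v 1] = v := by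
  funext i
  fin_cases i <;> rfl

private theorem nht_sym2 (W : WeierstrassCurve K) :
    ∃ C : ℝ, ∀ P Q : W.toAffine.Point, |logHeight (P.sym2x Q) - (nht P + nht Q)| ≤ C := by
  obtain ⟨C, hC⟩ := abs_logHeight_sym2_sub_le K
  refine ⟨C, fun P Q => ?_⟩
  have h := hC (a := P.xRep 0) (b := P.xRep 1) (c := Q.xRep 0) (d := Q.xRep 1)
    (by rw [ht_eta]; exact P.xRep_ne_zero) (by rw [ht_eta]; exact Q.xRep_ne_zero)
  rw [ht_eta, ht_eta] at h
  exact h

instance northcott_nht (W : WeierstrassCurve K) :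
    Northcott (nht : W.toAffine.Point → ℝ) where
  finite_le B := by
    have h1 : ({![1, 0]} ∪ (fun x : K => ![x, 1]) '' {x : K | logHeight₁ x ≤ B}).Finite :=
      (Set.finite_singleton _).union ((Northcott.finite_le (h := logHeight₁ (K := K)) B).image _)
    refine (Set.Finite.preimage' (f := fun P : W.toAffine.Point => P.xRep) h1 ?_).subset ?_
    · intro v _
      by_cases hv : ∃ P : W.toAffine.Point, P.xRep = v
      · obtain ⟨P, rfl⟩ := hv
        refine (Set.toFinite {P, -P}).subset fun Q hQ => ?_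
        exact Point.eq_or_eq_neg_of_xRep_eq_xRep hQ
      · refine Set.finite_empty.subset fun Q hQ => ?_
        exact hv ⟨Q, hQ⟩
    · intro P hP
      rcases P with _ | ⟨x, y, h⟩
      · left
        rfl
      · right
        refine ⟨x, ?_, rfl⟩
        have h2 : logHeight (Point.some x y h : W.toAffine.Point).xRep ≤ B := hP
        rw [Point.xRep_some, ← logHeight₁_eq_logHeight] at h2
        exact h2

variable [DecidableEq K]

/-- the approximate parallelogram law -/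
theorem parallelogram (W : WeierstrassCurve K) [W.IsElliptic] :
    ∃ C : ℝ, ∀ P Q : W.toAffine.Point,
      |nht (P + Q) + nht (P - Q) - 2 * (nht P + nht Q)| ≤ C := by
  obtain ⟨C₁, h₁⟩ := nht_sym2 W
  obtain ⟨C₂, h₂⟩ := abs_logHeight_addSubMap_sub_two_mul_logHeight_le W
  refine ⟨3 * C₁ + C₂, fun P Q => ?_⟩
  obtain ⟨c, hc, h₃⟩ := addSub_eval W two_ne_zero P Q
  have h4 := h₂ (P.sym2x Q)
  rw [h₃, logHeight_smul_eq_logHeight _ hc] at h4
  have h5 := h₁ P Q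
  have h6 := h₁ (P + Q) (P - Q)
  rw [abs_le] at h4 h5 h6 ⊢
  constructor <;> linarith [h4.1, h4.2, h5.1, h5.2, h6.1, h6.2]

/-- descent: the group of points is finitely generated if its quotient by the doubles is finite -/
theorem fg_of_index (W : WeierstrassCurve K) [W.IsElliptic]
    (h : (nsmulAddMonoidHom (α := W.toAffine.Point) 2).range.FiniteIndex) :
    AddGroup.FG W.toAffine.Point := by
  obtain ⟨C, hC⟩ := parallelogram W
  exact AddCommGroup.fg_of_descent' h nht_nonneg hC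

end heights

end Pool.Agent.Lib.MP_695920_nt.Extra
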