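import Mathlib

/-!
The rank of a finitely generated abelian group `G` and the index of `2 G`.
-/

namespace Pool.Agent.Lib.MP_695920_nt.Extra

variable {G : Type*} [AddCommGroup G]

variable (G) in
theorem two_pow_finrank_dvd [AddGroup.FG G] :
    2 ^ Module.finrank ℤ G ∣ (nsmulAddMonoidHom (α := G) 2).range.index := by
  have hfin : Module.Finite ℤ G := Module.Finite.iff_addGroup_fg.2 inferInstance
  let Q := G ⧸ Submodule.torsion ℤ G
  have hfree : Module.Free ℤ Q := inferInstance
  have h1 : (nsmulAddMonoidHom (α := Q) 2).range.index = 2 ^ Module.finrank ℤ Q :=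
    AddSubgroup.index_range_nsmul Q 2
  have h2 : Module.finrank ℤ Q = Module.finrank ℤ G := finrank_quotient_eq_of_le_torsion le_rfl
  let f : G →+ Q := (Submodule.mkQ (Submodule.torsion ℤ G)).toAddMonoidHom
  have hf : Function.Surjective f := Submodule.mkQ_surjective _
  rw [← h2, ← h1, ← AddSubgroup.index_comap_of_surjective _ hf]
  apply AddSubgroup.index_dvd_of_le
  rintro _ ⟨x, rfl⟩
  exact ⟨f x, (map_nsmul f 2 x).symm⟩

/-- the rank is at most the logarithm of the index of `2 G` -/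
theorem two_pow_finrank_le [AddGroup.FG G]
    (h : (nsmulAddMonoidHom (α := G) 2).range.FiniteIndex) :
    2 ^ Module.finrank ℤ G ≤ (nsmulAddMonoidHom (α := G) 2).range.index :=
  Nat.le_of_dvd (Nat.pos_of_ne_zero h.index_ne_zero) (two_pow_finrank_dvd G)

/-- a map to a finite set all of whose fibres meet at most `m` cosets of `A` -/
theorem index_le_of_fibres (A : AddSubgroup G) {H : Type*} (f : G → H) {s : Set H}
    (hs : s.Finite) (hfs : ∀ P, f P ∈ s) (m : ℕ)
    (hf : ∀ c ∈ s, ∃ t : Finset G, t.card ≤ m ∧ ∀ P, f P = c → ∃ Q ∈ t, P - Q ∈ A) :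
    A.FiniteIndex ∧ A.index ≤ m * s.ncard := by
  classical
  choose! t ht1 ht2 using hf
  let u : Finset (G ⧸ A) := hs.toFinset.biUnion fun c => (t c).image (fun Q : G => (QuotientAddGroup.mk Q : G ⧸ A))
  have hu : ∀ x : G ⧸ A, x ∈ u := by
    intro x
    obtain ⟨P, rfl⟩ := QuotientAddGroup.mk_surjective x
    obtain ⟨Q, hQ, hPQ⟩ := ht2 (f P) (hfs P) P rfl
    refine Finset.mem_biUnion.2 ⟨f P, hs.mem_toFinset.2 (hfs P), Finset.mem_image.2 ⟨Q, hQ, ?_⟩⟩
    rw [QuotientAddGroup.eq]
    rw [neg_add_eq_sub]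
    exact hPQ
  have hfin : Finite (G ⧸ A) := by
    refine Set.finite_univ_iff.1 (u.finite_toSet.subset fun x _ => hu x)
  have hcard : Nat.card (G ⧸ A) ≤ m * s.ncard := by
    calc Nat.card (G ⧸ A) ≤ u.card := by
          have h3 := Set.ncard_le_ncard (s := (Set.univ : Set (G ⧸ A)))
            (t := (u : Set (G ⧸ A))) (fun x _ => Finset.mem_coe.2 (hu x)) u.finite_toSet
          rwa [Set.ncard_univ, Set.ncard_coe_finset] at h3
      _ ≤ ∑ c ∈ hs.toFinset, ((t c).image (fun Q : G => (QuotientAddGroup.mk Q : G ⧸ A))).card :=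
          Finset.card_biUnion_le
      _ ≤ ∑ c ∈ hs.toFinset, m := Finset.sum_le_sum fun c hc =>
          Finset.card_image_le.trans (ht1 c (hs.mem_toFinset.1 hc))
      _ = m * s.ncard := by
          rw [Finset.sum_const, smul_eq_mul, mul_comm, Set.ncard_eq_toFinset_card s hs]
  exact ⟨A.finiteIndex_of_finite_quotient, hcard⟩

/-- a map to a finite set which separates the cosets of `A` -/
theorem index_le_of_map (A : AddSubgroup G) {H : Type*} (f : G → H) {s : Set H}
    (hs : s.Finite) (hfs : ∀ P, f P ∈ s) (hf : ∀ P Q, f P = f Q → P - Q ∈ A) :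
    A.FiniteIndex ∧ A.index ≤ s.ncard := by
  have h := index_le_of_fibres A f hs hfs 1 (fun c _ => by
    by_cases hc : ∃ Q, f Q = c
    · obtain ⟨Q, hQ⟩ := hc
      exact ⟨{Q}, by simp, fun P hP => ⟨Q, by simp, hf P Q (hP.trans hQ.symm)⟩⟩
    · exact ⟨∅, by simp, fun P hP => absurd ⟨P, hP⟩ hc⟩)
  rwa [one_mul] at h

/-- a homomorphism with finite range whose kernel is contained in `A` -/
theorem index_le_of_hom (A : AddSubgroup G) {H : Type*} [AddGroup H] (f : G →+ H) {s : Set H}
    (hs : s.Finite) (hfs : ∀ P, f P ∈ s) (hf : ∀ P, f P = 0 → P ∈ A) :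
    A.FiniteIndex ∧ A.index ≤ s.ncard :=
  index_le_of_map A f hs hfs fun P Q h => hf _ (by rw [map_sub, h, sub_self])

/-- the bound for the rank -/
theorem finrank_le_log [AddGroup.FG G] {N : ℕ}
    (h : (nsmulAddMonoidHom (α := G) 2).range.FiniteIndex)
    (hN : (nsmulAddMonoidHom (α := G) 2).range.index ≤ N) :
    (Module.finrank ℤ G : ℝ) * Real.log 2 ≤ Real.log N := by
  have h1 := (two_pow_finrank_le h).trans hN
  have h2 : ((2 : ℝ)) ^ Module.finrank ℤ G ≤ N := by exact_mod_cast h1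
  rw [← Real.log_pow]
  exact Real.log_le_log (by positivity) h2

end Pool.Agent.Lib.MP_695920_nt.Extra
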